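import Mathlib
import Pool.Agent.Lib.MP_959bb6_lc.Red2
import Pool.Agent.Lib.MP_959bb6_lc.VMain
import Pool.Agent.Lib.MP_959bb6_lc.EdgeAug

/-!
Polynomial-time approximation schemes for the Euclidean minimum-cost k-vertex-connected and
k-edge-connected spanning network problems, `k` being an arbitrary part of the input.
-/

set_option autoImplicit false

namespace Pool.Agent.Results.MP_959bb6_lc.Full

open Pool.Agent.Lib.MP_959bb6_lc

theorem result (d : ℕ) (ε : ℝ) (hε : 0 < ε) :
    Approximable d VertConn (fun _ => True) ε ∧ Approximable d EdgeConn (fun _ => True) ε := by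
  have e : EdgeConn = ECut := by
    funext n k G
    exact propext (edgeConn_iff n k G)
  refine ⟨full vertConn_lt (fun n k G h hk u v => ?_) (fun n k G G' hn _ u v huv => ?_)
    (fun n G u v _ => ⟨fun i => i.elim0, fun i => i.elim0, fun i => i.elim0⟩) Vx.core
    (w := fun _ => 1) (fun _ => one_pos) (fun n k M s h => ?_) d hε,
    full edgeConn_lt (fun n k G h hk u v => ?_) (fun n k G G' hn _ u v huv => ?_)
    (fun n G u v _ => ⟨fun i => i.elim0, fun i => i.elim0⟩) (e ▸ Eg.core)
    (w := fun k => k + 1) (fun _ => Nat.succ_pos _) (fun n k M s _ => ?_) d hε⟩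
  · by_cases c : u = v
    · rw [c]
    · obtain ⟨p, _⟩ := h u v c
      exact ⟨(p ⟨0, hk⟩).1⟩
  · exact absurd (Fin.ext (by omega)) huv
  · rw [vertConn_iff n k _ h, s.vcut, mc_vert h]
  · by_cases c : u = v
    · rw [c]
    · obtain ⟨p, _⟩ := h u v c
      exact ⟨(p ⟨0, hk⟩).1⟩
  · exact absurd (Fin.ext (by omega)) huv
  · rw [edgeConn_iff, s.ecut, mc_edge]

end Pool.Agent.Results.MP_959bb6_lc.Full
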