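import Mathlib
import Pool.Agent.Lib.MP_959bb6_lc_M.Red

/-!
One polynomial-time algorithm for the minimum-cost k-edge-connected simple spanning network
problem in arbitrary finite metric spaces whose ratio tends to one as `k` grows.
-/

set_option autoImplicit false

namespace Pool.Agent.Results.MP_959bb6_lc.MetricEdge

open Pool.Agent.Shared.PolyTime Pool.Agent.Lib.MP_959bb6_lc Pool.Agent.Lib.MP_959bb6_lc_M

theorem result : ∃ A : (I : MInst) → SimpleGraph (Fin I.n),
    Nonempty (Turing.TM2ComputableInPolyTime MInst.code (fun s : List Bool => s)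
      (fun I : MInst => encGraph (A I))) ∧
    ∀ I : MInst, 64000 ≤ I.k → ∀ G, EdgeConn I.n I.k G → EdgeConn I.n I.k (A I) ∧
      I.cost (A I) ≤ (1 + 720 / (I.k : ℝ) ^ (1 / 3 : ℝ)) * I.cost G :=
  edge

end Pool.Agent.Results.MP_959bb6_lc.MetricEdge
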